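import Mathlib
import Pool.Agent.H.MP_2ca583_ag.Cls

namespace Pool.Agent.Results.MP_2ca583_ag.Q1

open Polynomial Pool.Agent.H.MP_2ca583_ag

/-- The `p`-torsion of the Picard group of `k[x, y] / (y ^ 2 - f)`. -/
def tors (p : ℕ) {k : Type*} [Field k] (f : k[X]) :
    Set (CommRing.Pic (QuadraticAlgebra k[X] f 0)) := {c | c ^ p = 1}

theorem result (p : ℕ) [Fact p.Prime] (hp2 : 2 < p) (k : Type*) [Field k] [IsAlgClosed k]
    [CharP k p] :
    ∃ g : ℕ, 1 ≤ g ∧ ∃ Λ : Finset k, Λ.card = 2 * g ∧ ∀ μ : k, μ ∉ Λ →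
      (tors p ((X - C μ) * ∏ l ∈ Λ, (X - C l))).Finite ∧
        (tors p ((X - C μ) * ∏ l ∈ Λ, (X - C l))).ncard < p ^ g := by
  classical
  obtain ⟨m, hm⟩ : Odd p := (Fact.out : p.Prime).odd_of_ne_two (by omega)
  have hmon : (X ^ (2 * p) - X : k[X]).Monic := by
    apply Monic.sub_of_left (monic_X_pow _)
    rw [degree_X, degree_X_pow]
    exact_mod_cast (by omega : 1 < 2 * p)
  have hdeg : (X ^ (2 * p) - X : k[X]).natDegree = 2 * p :=
    FiniteField.X_pow_card_sub_X_natDegree_eq k (by omega)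
  have hsep : (X ^ (2 * p) - X : k[X]).Separable := by
    have : derivative (X ^ (2 * p) - X : k[X]) = -1 := by
      rw [derivative_sub, pow_mul, der_pow_p, derivative_X, zero_sub]
    rw [separable_def, this]
    exact isCoprime_one_right.neg_right
  have hnd := nodup_roots hsep
  have hprod : ∏ l ∈ (X ^ (2 * p) - X : k[X]).roots.toFinset, (X - C l) = X ^ (2 * p) - X := by
    conv_rhs => rw [(IsAlgClosed.splits _).eq_prod_roots_of_monic hmon]
    rw [Finset.prod_eq_multiset_prod, Multiset.toFinset_val, Multiset.dedup_eq_self.2 hnd]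
  refine ⟨p, by omega, (X ^ (2 * p) - X : k[X]).roots.toFinset, ?_, fun μ hμ => ?_⟩
  · rw [Multiset.toFinset_card_of_nodup hnd, IsAlgClosed.card_roots_eq_natDegree, hdeg]
  refine bound p m p hm ?_ ?_ 1 (by omega) ?_
  · rw [hprod, natDegree_mul (X_sub_C_ne_zero μ) hmon.ne_zero, hdeg, natDegree_X_sub_C, add_comm]
  · rw [← Finset.prod_insert (f := fun l => X - C l) hμ]
    exact (separable_prod_X_sub_C_iff'.2 fun _ _ _ _ h => h).squarefree
  · intro u hu
    rw [hprod]
    obtain ⟨Q, hQ⟩ := sub_dvd_pow_sub_pow (X ^ (2 * p) - X : k[X]) (-X) m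
    have e : u * ((X - C μ) * (X ^ (2 * p) - X)) ^ m =
        u * (X - C μ) ^ m * (-X) ^ m + X ^ (2 * p) * (u * (X - C μ) ^ m * Q) := by
      rw [mul_pow]
      linear_combination (u * (X - C μ) ^ m) * hQ
    rw [e, coeff_add, coeff_X_pow_mul', if_neg (by omega), add_zero]
    apply coeff_eq_zero_of_natDegree_lt
    have d1 : u.natDegree < p := by
      by_cases h0 : u = 0
      · rw [h0, natDegree_zero]
        omega
      · exact (natDegree_lt_iff_degree_lt h0).2 hu
    have d2 : ((X - C μ) ^ m).natDegree = m := by simp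
    have d3 : ((-X : k[X]) ^ m).natDegree = m := by simp
    have d4 := natDegree_mul_le (p := u * (X - C μ) ^ m) (q := (-X) ^ m)
    have d5 := natDegree_mul_le (p := u) (q := (X - C μ) ^ m)
    omega

end Pool.Agent.Results.MP_2ca583_ag.Q1
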